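import Pool.Agent.Q267.ST.Stm

/-!
# The Frobenius of a power series over the Laurent polynomials; coefficients of products
-/

set_option autoImplicit false

open Finset

namespace Pool.Agent.Q299.ST

open PowerSeries Pool.Agent.Q267.ST

theorem lp_pow (ι k : Type) [Field k] (p : ℕ) [Fact p.Prime] [CharP k p] (f : LP ι k) :
    (∀ u : ι → ℤ, (f ^ p).coeff (p • u) = (f.coeff u) ^ p) ∧
      ∀ v : ι → ℤ, (∀ u : ι → ℤ, v ≠ p • u) → (f ^ p).coeff v = 0 := by
  classical
  have hp : p ≠ 0 := (Fact.out : p.Prime).ne_zero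
  have : CharP (LP ι k) p :=
    charP_of_injective_algebraMap (FaithfulSMul.algebraMap_injective k (LP ι k)) p
  induction f using AddMonoidAlgebra.induction_linear with
  | zero => simp [hp]
  | add f g hf hg =>
    rw [add_pow_char]
    refine ⟨fun u => ?_, fun v hv => ?_⟩
    · rw [AddMonoidAlgebra.coeff_add, Finsupp.add_apply, hf.1, hg.1, AddMonoidAlgebra.coeff_add,
        Finsupp.add_apply, add_pow_char]
    · rw [AddMonoidAlgebra.coeff_add, Finsupp.add_apply, hf.2 v hv, hg.2 v hv, add_zero]
  | single w a =>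
    rw [AddMonoidAlgebra.single_pow, AddMonoidAlgebra.coeff_single,
      AddMonoidAlgebra.coeff_single]
    refine ⟨fun u => ?_, fun v hv => ?_⟩
    · by_cases h : w = u
      · subst h; simp
      · have h' : p • w ≠ p • u := by
          intro h2
          apply h
          funext i
          have := congrFun h2 i
          simp only [Pi.smul_apply, nsmul_eq_mul] at this
          exact mul_left_cancel₀ (Nat.cast_ne_zero.2 hp) this
        rw [Finsupp.single_eq_of_ne (Ne.symm h'), Finsupp.single_eq_of_ne (Ne.symm h),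
          zero_pow hp]
    · rw [Finsupp.single_eq_of_ne (hv w)]

theorem frob : S_Frob := by
  intro ι k _ _ _ p _ _ hp Ψ hk
  have : CharP (LP ι k) p :=
    charP_of_injective_algebraMap (FaithfulSMul.algebraMap_injective k (LP ι k)) p
  have key : Ψ ^ p = PowerSeries.map (frobenius (LP ι k) p) (PowerSeries.expand p hp Ψ) :=
    (MvPowerSeries.map_frobenius_expand p hp (f := Ψ)).symm
  have h1 : ∀ n, coeff (p * n) (Ψ ^ p) = (coeff n Ψ) ^ p := by
    intro n
    rw [key, PowerSeries.coeff_map, PowerSeries.coeff_expand_mul, frobenius_def]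
  have h2 : ∀ n, ¬ p ∣ n → coeff n (Ψ ^ p) = 0 := by
    intro n hn
    rw [key, PowerSeries.coeff_map, PowerSeries.coeff_expand_of_not_dvd p hp _ hn, map_zero]
  refine ⟨fun u => ?_, fun v hv => ?_⟩
  · ext n
    by_cases hn : p ∣ n
    · obtain ⟨m, rfl⟩ := hn
      rw [PowerSeries.coeff_expand_mul]
      simp only [cx, PowerSeries.coeff_mk]
      rw [h1, (lp_pow ι k p _).1 u, hk]
    · rw [PowerSeries.coeff_expand_of_not_dvd p hp _ hn]
      simp only [cx, PowerSeries.coeff_mk]
      rw [h2 n hn]; rfl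
  · ext n
    simp only [cx, PowerSeries.coeff_mk, map_zero]
    by_cases hn : p ∣ n
    · obtain ⟨m, rfl⟩ := hn
      rw [h1, (lp_pow ι k p _).2 v hv]
    · rw [h2 n hn]; rfl

theorem cx_add {ι A : Type} [CommRing A] (u : ι → ℤ) (F G : PowerSeries (LP ι A)) :
    cx u (F + G) = cx u F + cx u G := by
  ext n
  simp [cx]

theorem cx_zero {ι A : Type} [CommRing A] (u : ι → ℤ) :
    cx u (0 : PowerSeries (LP ι A)) = 0 := by
  ext n
  simp [cx]

theorem cx_sum {ι A : Type} [CommRing A] {J : Type*} (s : Finset J) (u : ι → ℤ)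
    (F : J → PowerSeries (LP ι A)) :
    cx u (∑ j ∈ s, F j) = ∑ j ∈ s, cx u (F j) := by
  classical
  induction s using Finset.induction_on with
  | empty => simp [cx_zero]
  | insert a s ha ih => rw [Finset.sum_insert ha, Finset.sum_insert ha, cx_add, ih]

theorem cx_mul_xm {ι A : Type} [CommRing A] (u w : ι → ℤ) (F : PowerSeries (LP ι A)) :
    cx u (F * xm w) = cx (u - w) F := by
  ext n
  simp only [cx, PowerSeries.coeff_mk, xm, PowerSeries.coeff_mul_C]
  rw [AddMonoidAlgebra.coeff_mul_single_apply]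
  simp [sub_eq_add_neg]

theorem cx_mul_cst {ι A : Type} [CommRing A] (u : ι → ℤ) (F : PowerSeries (LP ι A))
    (b : PowerSeries A) : cx u (F * cst b) = cx u F * b := by
  ext n
  simp only [cx, PowerSeries.coeff_mk, cst, PowerSeries.coeff_mul, PowerSeries.coeff_map]
  rw [AddMonoidAlgebra.coeff_sum, Finsupp.finsetSum_apply]
  refine Finset.sum_congr rfl fun x _ => ?_
  rw [AddMonoidAlgebra.coe_algebraMap]
  simp only [Function.comp_apply, Algebra.algebraMap_self, RingHom.id_apply]
  rw [AddMonoidAlgebra.coeff_mul_single_zero]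

theorem prod_xm {ι A : Type} [Fintype ι] [DecidableEq ι] [CommRing A] (v : ι →₀ ℕ) :
    (v.prod fun i n => (xm (Pi.single i 1) : PowerSeries (LP ι A)) ^ n) = xm (zexp v) := by
  rw [Finsupp.prod_fintype _ _ (fun i => pow_zero _)]
  simp only [xm, ← map_pow, ← map_prod]
  congr 1
  simp only [AddMonoidAlgebra.single_pow, one_pow]
  rw [AddMonoidAlgebra.prod_single]
  congr 1
  · funext i
    simp only [zexp, Finset.sum_apply, Pi.smul_apply, Pi.single_apply]
    simp
  · simp

theorem cxMul : S_CxMul := by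
  intro ι A _ _ _ Ψ F u
  conv_lhs => rw [F.as_sum]
  rw [map_sum, Finset.mul_sum, cx_sum]
  refine Finset.sum_congr rfl fun v _ => ?_
  rw [toL, MvPolynomial.eval₂Hom_monomial, prod_xm, ← mul_assoc, cx_mul_xm]
  rw [RingHom.comp_apply, cx_mul_cst]
  rfl


end Pool.Agent.Q299.ST
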