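import Pool.Agent.Q267.ST.Stm

/-!
# Polynomial growth of the monomials
-/

set_option autoImplicit false

open Finset

namespace Pool.Agent.Q299.ST

open Pool.Agent.Q267.ST

theorem exists_bas {K L X : Type*} [Field K] [AddCommGroup L] [Module K L] [DecidableEq X]
    (v : X → L) (E : Finset X) (s : Finset X) (hs : LinearIndepOn K v (s : Set X)) (hsE : s ⊆ E) :
    ∃ B : Finset X, s ⊆ B ∧ B ⊆ E ∧ LinearIndepOn K v (B : Set X) ∧
      (∀ e ∈ E, v e ∈ Submodule.span K (v '' (B : Set X))) ∧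
      B.card = Module.finrank K (Submodule.span K (v '' (E : Set X))) := by
  classical
  obtain ⟨b, hbE, hsb, hsp, hb⟩ :=
    exists_linearIndepOn_extension hs (Finset.coe_subset.2 hsE)
  have hfin : b.Finite := E.finite_toSet.subset hbE
  obtain ⟨B, rfl⟩ := hfin.exists_finset_coe
  refine ⟨B, Finset.coe_subset.1 hsb, Finset.coe_subset.1 hbE, hb,
    fun e he => hsp ⟨e, he, rfl⟩, ?_⟩
  have h1 : Submodule.span K (v '' (E : Set X)) = Submodule.span K (v '' (B : Set X)) := by
    apply le_antisymm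
    · exact Submodule.span_le.2 hsp
    · exact Submodule.span_mono (Set.image_mono hbE)
  rw [h1]
  have h2 : LinearIndependent K (fun x : B => v x) := hb
  have h3 := finrank_span_eq_card h2
  have h4 : Set.range (fun x : B => v x) = v '' (B : Set X) := by
    ext z
    constructor
    · rintro ⟨x, rfl⟩; exact ⟨x, x.2, rfl⟩
    · rintro ⟨x, hx, rfl⟩; exact ⟨⟨x, hx⟩, rfl⟩
  rw [h4] at h3
  rw [h3, Fintype.card_coe]

/-- The exponents of degree `m`. -/
def Ex (κ m : ℕ) : Finset (Fin (κ + 1) → ℕ) :=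
  (Fintype.piFinset fun _ => range (m + 1)).filter fun e => ∑ l, e l = m

theorem mem_Ex {κ m : ℕ} {e : Fin (κ + 1) → ℕ} : e ∈ Ex κ m ↔ ∑ l, e l = m := by
  unfold Ex
  rw [Finset.mem_filter, Fintype.mem_piFinset]
  constructor
  · exact fun h => h.2
  · intro h
    refine ⟨fun l => ?_, h⟩
    rw [Finset.mem_range]
    have : e l ≤ ∑ l, e l := Finset.single_le_sum (fun _ _ => Nat.zero_le _) (Finset.mem_univ l)
    omega

theorem card_Ex (κ m : ℕ) : (Ex κ m).card ≤ (m + 1) ^ (κ + 1) := by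
  unfold Ex
  refine (Finset.card_filter_le _ _).trans ?_
  simp

/-- The monomials. -/
def mono {κ : ℕ} {L : Type*} [CommMonoid L] (y : Fin (κ + 1) → L) (e : Fin (κ + 1) → ℕ) : L :=
  ∏ l, y l ^ e l

/-- Multiplication of a monomial by the first variable. -/
def sh {κ : ℕ} (e : Fin (κ + 1) → ℕ) : Fin (κ + 1) → ℕ := e + Pi.single 0 1

theorem sh_inj {κ : ℕ} : Function.Injective (sh (κ := κ)) := fun _ _ h => add_right_cancel h

theorem mono_sh {κ : ℕ} {L : Type*} [CommMonoid L] (y : Fin (κ + 1) → L)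
    (e : Fin (κ + 1) → ℕ) : mono y (sh e) = y 0 * mono y e := by
  unfold mono sh
  simp only [Pi.add_apply, pow_add, Finset.prod_mul_distrib]
  rw [mul_comm]
  congr 1
  rw [Finset.prod_eq_single (0 : Fin (κ + 1))]
  · simp
  · intro b _ hb
    simp [hb]
  · simp

theorem step {K L : Type*} [Field K] [Field L] [Algebra K L] (κ : ℕ) (y : Fin (κ + 1) → L)
    (h0 : y 0 ≠ 0) (m : ℕ) :
    ∃ B B₀ : Finset (Fin (κ + 1) → ℕ), B₀ ⊆ B ∧ (∀ e ∈ B, ∑ l, e l = m + 1) ∧
      (∀ e ∈ B, e ∉ B₀ → e 0 ≠ 0) ∧ LinearIndepOn K (mono y) (B : Set (Fin (κ + 1) → ℕ)) ∧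
      (∀ e : Fin (κ + 1) → ℕ, ∑ l, e l = m + 1 →
        mono y e ∈ Submodule.span K (mono y '' (B : Set (Fin (κ + 1) → ℕ)))) ∧
      B.card = Module.finrank K (Submodule.span K (mono y '' (Ex κ (m + 1) : Set _))) ∧
      B₀.card + Module.finrank K (Submodule.span K (mono y '' (Ex κ m : Set _))) = B.card := by
  classical
  obtain ⟨b, -, hbE, hb, -, hcb⟩ := exists_bas (K := K) (mono y) (Ex κ m) ∅ (by simp) (by simp)
  have hshi : LinearIndepOn K (mono y) ((b.image sh : Finset _) : Set (Fin (κ + 1) → ℕ)) := by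
    rw [Finset.coe_image]
    apply LinearIndepOn.image_of_comp
    have : (mono y ∘ sh) = (LinearMap.mulLeft K (y 0)) ∘ mono y := by
      funext e
      simp [mono_sh]
    rw [this]
    exact hb.map_injOn (LinearMap.mulLeft K (y 0))
      ((mul_right_injective₀ h0).injOn)
  have hsub : b.image sh ⊆ Ex κ (m + 1) := by
    intro e he
    obtain ⟨e', he', rfl⟩ := Finset.mem_image.1 he
    rw [mem_Ex]
    have := mem_Ex.1 (hbE he')
    simp [sh, Finset.sum_add_distrib, this]
  obtain ⟨B, hsB, hBE, hB, hsp, hcB⟩ := exists_bas (K := K) (mono y) (Ex κ (m + 1)) (b.image sh)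
    hshi hsub
  refine ⟨B, B \ b.image sh, Finset.sdiff_subset, fun e he => mem_Ex.1 (hBE he), ?_, hB,
    fun e he => hsp e (mem_Ex.2 he), hcB, ?_⟩
  · intro e he he'
    have : e ∈ b.image sh := by
      by_contra hc
      exact he' (Finset.mem_sdiff.2 ⟨he, hc⟩)
    obtain ⟨e', -, rfl⟩ := Finset.mem_image.1 this
    simp [sh]
  · rw [← hcb, ← Finset.card_image_of_injective b sh_inj]
    exact Finset.card_sdiff_add_card_eq_card hsB

theorem growthK {K L : Type*} [Field K] [Field L] [Algebra K L] (κ : ℕ) (y : Fin (κ + 1) → L)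
    (h0 : y 0 ≠ 0) (ε : ℝ) (hε : 0 < ε) :
    ∃ (m : ℕ) (B B₀ : Finset (Fin (κ + 1) → ℕ)), 1 ≤ m ∧ B₀ ⊆ B ∧ B.Nonempty ∧
      (∀ e ∈ B, ∑ l, e l = m) ∧
      (∀ e ∈ B, e ∉ B₀ → e 0 ≠ 0) ∧ LinearIndepOn K (mono y) (B : Set (Fin (κ + 1) → ℕ)) ∧
      (∀ e : Fin (κ + 1) → ℕ, ∑ l, e l = m →
        mono y e ∈ Submodule.span K (mono y '' (B : Set (Fin (κ + 1) → ℕ)))) ∧
      (B₀.card : ℝ) ≤ ε * B.card := by
  classical
  set h : ℕ → ℕ := fun m => Module.finrank K (Submodule.span K (mono y '' (Ex κ m : Set _)))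
    with hh
  have hpos : ∀ m, 1 ≤ h m := by
    intro m
    have hne : mono y (Pi.single 0 m) ≠ 0 := by
      unfold mono
      rw [Finset.prod_ne_zero_iff]
      intro l _
      by_cases hl : l = 0
      · subst hl; exact pow_ne_zero _ h0
      · simp [hl]
    have hmem : mono y (Pi.single 0 m) ∈ Submodule.span K (mono y '' (Ex κ m : Set _)) :=
      Submodule.subset_span ⟨_, mem_Ex.2 (by simp), rfl⟩
    have : Module.Finite K (Submodule.span K (mono y '' (Ex κ m : Set (Fin (κ + 1) → ℕ)))) :=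
      Module.Finite.span_of_finite K ((Finset.finite_toSet _).image _)
    have : Nontrivial (Submodule.span K (mono y '' (Ex κ m : Set (Fin (κ + 1) → ℕ)))) :=
      ⟨⟨⟨_, hmem⟩, 0, fun hc => hne (congrArg Subtype.val hc)⟩⟩
    exact Module.finrank_pos
  have hle : ∀ m, h m ≤ (m + 1) ^ (κ + 1) := by
    intro m
    refine le_trans ?_ (card_Ex κ m)
    have h1 : ((Ex κ m).image (mono y) : Set L) = mono y '' (Ex κ m : Set _) := by simp
    rw [hh]
    simp only
    rw [← h1]
    exact (finrank_span_finset_le_card _).trans Finset.card_image_le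
  by_contra hcon
  push Not at hcon
  have hstep : ∀ m, (h m : ℝ) < (1 - ε) * h (m + 1) := by
    intro m
    obtain ⟨B, B₀, h1, h2, h3, h4, h5, h6, h7⟩ := step (K := K) κ y h0 m
    have hne : B.Nonempty := by
      rw [← Finset.card_pos, h6]
      exact hpos (m + 1)
    have := hcon (m + 1) B B₀ (by omega) h1 hne h2 h3 h4 h5
    have h8 : (B₀.card : ℝ) + h m = B.card := by exact_mod_cast h7
    have h9 : (B.card : ℝ) = h (m + 1) := by exact_mod_cast h6
    rw [h9] at h8 this
    linarith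
  have hε1 : 0 < 1 - ε := by
    have h1 := hstep 0
    have h2 : (1 : ℝ) ≤ h 0 := by exact_mod_cast hpos 0
    have h3 : (1 : ℝ) ≤ h 1 := by exact_mod_cast hpos 1
    by_contra hc
    push Not at hc
    have : (1 - ε) * (h (0 + 1) : ℝ) ≤ 0 := mul_nonpos_of_nonpos_of_nonneg hc (by positivity)
    linarith
  set ρ : ℝ := (1 - ε)⁻¹ with hρ
  have hρ1 : 1 < ρ := by
    rw [hρ]
    exact (one_lt_inv₀ hε1).2 (by linarith)
  have hρ0 : 0 < ρ := by positivity
  have hgrow : ∀ m, ρ ^ m ≤ h m := by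
    intro m
    induction m with
    | zero => simpa using (by exact_mod_cast hpos 0 : (1 : ℝ) ≤ h 0)
    | succ m ih =>
      have h1 := hstep m
      have h2 : ρ * (h m : ℝ) ≤ h (m + 1) := by
        rw [hρ, inv_mul_le_iff₀ hε1]
        exact h1.le
      calc ρ ^ (m + 1) = ρ * ρ ^ m := by ring
        _ ≤ ρ * h m := by gcongr
        _ ≤ _ := h2
  have hlim := tendsto_pow_const_div_const_pow_of_one_lt (κ + 1) hρ1
  have hev := (hlim.eventually (gt_mem_nhds (show (0 : ℝ) < ρ⁻¹ by positivity))).and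
    (Filter.eventually_ge_atTop 1)
  obtain ⟨n, hn, hn1⟩ := hev.exists
  obtain ⟨m, rfl⟩ : ∃ m, n = m + 1 := ⟨n - 1, by omega⟩
  have h1 : ρ ^ m ≤ ((m : ℝ) + 1) ^ (κ + 1) := by
    refine (hgrow m).trans ?_
    exact_mod_cast hle m
  rw [div_lt_iff₀ (by positivity)] at hn
  have h2 : ρ⁻¹ * ρ ^ (m + 1) = ρ ^ m := by
    rw [pow_succ]; field_simp
  rw [h2] at hn
  push_cast at hn
  linarith

theorem growth : S_Growth := by
  classical
  intro R S _ _ _ _ i hi κ y hy0 ε hε
  let K := FractionRing R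
  let L := FractionRing S
  have hinj : Function.Injective ((algebraMap S L).comp i) :=
    (IsFractionRing.injective S L).comp hi
  let alg : Algebra K L := (IsFractionRing.lift (K := K) hinj).toAlgebra
  have halg : ∀ r : R, algebraMap K L (algebraMap R K r) = algebraMap S L (i r) := by
    intro r
    exact IsFractionRing.lift_algebraMap (K := K) hinj r
  have hmono : ∀ e, mono (fun l => algebraMap S L (y l)) e = algebraMap S L (∏ l, y l ^ e l) := by
    intro e
    simp [mono]
  obtain ⟨m, B, B₀, h1, h2, h3, h4, h5, h6, h7, h8⟩ := growthK (K := K) κ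
    (fun l => algebraMap S L (y l))
    (fun h => hy0 ((IsFractionRing.injective S L) (by rw [h, map_zero]))) ε hε
  refine ⟨m, B, B₀, h1, h2, h3, h4, h5, ?_, ?_, h8⟩
  · intro c hc e he
    have h9 : ∑ e ∈ B, (algebraMap R K (c e)) • mono (fun l => algebraMap S L (y l)) e = 0 := by
      have h10 := congrArg (algebraMap S L) hc
      rw [map_sum, map_zero] at h10
      rw [← h10]
      refine Finset.sum_congr rfl fun e _ => ?_
      rw [Algebra.smul_def, halg, map_mul, hmono]
    have h11 := linearIndepOn_finset_iff.1 h6 (fun e => algebraMap R K (c e)) h9 e he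
    exact (IsFractionRing.injective R K) (by rw [h11, map_zero])
  · intro e he
    have h9 := h7 e he
    rw [Submodule.mem_span_image_finset_iff_exists_fun] at h9
    obtain ⟨a₀, ha₀⟩ := h9
    obtain ⟨a, ha⟩ : ∃ a : (Fin (κ + 1) → ℕ) → K,
        ∑ e' ∈ B, a e' • mono (fun l => algebraMap S L (y l)) e' =
          mono (fun l => algebraMap S L (y l)) e := by
      refine ⟨fun e' => if h : e' ∈ B then a₀ ⟨e', h⟩ else 0, ?_⟩
      rw [← ha₀, ← Finset.sum_coe_sort B]
      refine Finset.sum_congr rfl fun x _ => ?_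
      simp
    obtain ⟨d, hd⟩ := IsLocalization.exist_integer_multiples (nonZeroDivisors R) B a
    choose! c hc using hd
    refine ⟨d, c, nonZeroDivisors.coe_ne_zero d, ?_⟩
    apply IsFractionRing.injective S L
    rw [map_mul, map_sum, ← hmono, ← ha, Finset.mul_sum]
    refine Finset.sum_congr rfl fun e' he' => ?_
    rw [map_mul, ← hmono, ← halg, ← halg, hc e' he', Algebra.smul_def, ← mul_assoc]
    congr 1
    rw [Algebra.smul_def, map_mul]


end Pool.Agent.Q299.ST
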