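import Pool.Agent.Q299.ST.Frob

/-!
# The relation of Lipshitz
-/

set_option autoImplicit false
set_option linter.unusedSectionVars false

open Finset

namespace Pool.Agent.Q299.ST

open PowerSeries Pool.Agent.Q267.ST

section Lip

variable {ι A : Type} [Fintype ι] [DecidableEq ι] [CommRing A]

/-- The derivation `∂ / ∂ x_i` of the Laurent polynomials. -/
noncomputable def dL (i : ι) : LP ι A →+ LP ι A where
  toFun f := f.coeff.sum fun u a => AddMonoidAlgebra.single (u - Pi.single i 1) ((u i : A) * a)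
  map_zero' := by simp
  map_add' f g := by
    have h := Finsupp.sum_add_index' (f := f.coeff) (g := g.coeff)
      (h := fun (u : ι → ℤ) (a : A) =>
        (AddMonoidAlgebra.single (u - Pi.single i 1) ((u i : A) * a) : LP ι A))
      (fun u => by simp) (fun u a b => by rw [mul_add, AddMonoidAlgebra.single_add])
    exact h

theorem dL_single (i : ι) (u : ι → ℤ) (a : A) :
    dL i (AddMonoidAlgebra.single u a : LP ι A) =
      AddMonoidAlgebra.single (u - Pi.single i 1) ((u i : A) * a) := by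
  have h : dL i (AddMonoidAlgebra.single u a : LP ι A) =
      (AddMonoidAlgebra.single u a : LP ι A).coeff.sum fun u a =>
        AddMonoidAlgebra.single (u - Pi.single i 1) ((u i : A) * a) := rfl
  rw [h, AddMonoidAlgebra.coeff_single, Finsupp.sum_single_index]
  simp

theorem dL_coeff (i : ι) (f : LP ι A) (u : ι → ℤ) :
    (dL i f).coeff u = ((u i + 1 : ℤ) : A) * f.coeff (u + Pi.single i 1) := by
  induction f using AddMonoidAlgebra.induction_linear with
  | zero => simp
  | add f g hf hg =>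
    rw [map_add, AddMonoidAlgebra.coeff_add, Finsupp.add_apply, hf, hg,
      AddMonoidAlgebra.coeff_add, Finsupp.add_apply, mul_add]
  | single w a =>
    rw [dL_single, AddMonoidAlgebra.coeff_single, AddMonoidAlgebra.coeff_single]
    by_cases h : w = u + Pi.single i 1
    · subst h
      simp
    · have h' : w - Pi.single i 1 ≠ u := fun h2 => h (by rw [← h2]; simp)
      rw [Finsupp.single_eq_of_ne (Ne.symm h'), Finsupp.single_eq_of_ne (Ne.symm h), mul_zero]

theorem dL_mul (i : ι) (f g : LP ι A) : dL i (f * g) = f * dL i g + dL i f * g := by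
  induction f using AddMonoidAlgebra.induction_linear with
  | zero => simp
  | add f f' hf hf' => rw [add_mul, map_add, hf, hf', map_add]; ring
  | single u a =>
    induction g using AddMonoidAlgebra.induction_linear with
    | zero => simp
    | add g g' hg hg' => rw [mul_add, map_add, hg, hg', map_add]; ring
    | single v b =>
      rw [AddMonoidAlgebra.single_mul_single, dL_single, dL_single, dL_single,
        AddMonoidAlgebra.single_mul_single, AddMonoidAlgebra.single_mul_single]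
      have h1 : u + (v - Pi.single i 1) = u + v - Pi.single i 1 := by abel
      have h2 : u - Pi.single i 1 + v = u + v - Pi.single i 1 := by abel
      rw [h1, h2, ← AddMonoidAlgebra.single_add]
      congr 1
      rw [Pi.add_apply]
      push_cast
      ring

/-- The derivation `∂ / ∂ x_i` of the power series. -/
noncomputable def dT (i : ι) (P : PowerSeries (LP ι A)) : PowerSeries (LP ι A) :=
  PowerSeries.mk fun n => dL i (coeff n P)

theorem dT_mul (i : ι) (P Q : PowerSeries (LP ι A)) :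
    dT i (P * Q) = P * dT i Q + dT i P * Q := by
  ext1 n
  rw [map_add, coeff_mul, coeff_mul]
  simp only [dT, coeff_mk]
  rw [coeff_mul, map_sum, ← Finset.sum_add_distrib]
  exact Finset.sum_congr rfl fun x _ => dL_mul i _ _

/-- The box of size `N`. -/
def InBox (N : ℕ) (Q : PowerSeries (LP ι A)) : Prop :=
  ∀ n u, (coeff n Q).coeff u ≠ 0 → n ≤ N ∧ ∀ i, |u i| ≤ N

theorem InBox.mono {N N' : ℕ} {Q : PowerSeries (LP ι A)} (h : InBox N Q) (hN : N ≤ N') :
    InBox N' Q := by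
  intro n u hnu
  obtain ⟨h1, h2⟩ := h n u hnu
  exact ⟨h1.trans hN, fun i => (h2 i).trans (by exact_mod_cast hN)⟩

theorem InBox.add {N : ℕ} {P Q : PowerSeries (LP ι A)} (hP : InBox N P) (hQ : InBox N Q) :
    InBox N (P + Q) := by
  intro n u hnu
  rw [map_add, AddMonoidAlgebra.coeff_add, Finsupp.add_apply] at hnu
  by_cases h : (coeff n P).coeff u = 0
  · rw [h, zero_add] at hnu
    exact hQ n u hnu
  · exact hP n u h

theorem InBox.neg {N : ℕ} {P : PowerSeries (LP ι A)} (hP : InBox N P) : InBox N (-P) := by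
  intro n u hnu
  refine hP n u fun h => hnu ?_
  rw [map_neg, AddMonoidAlgebra.coeff_neg, Finsupp.neg_apply, h, neg_zero]

theorem InBox.sub {N : ℕ} {P Q : PowerSeries (LP ι A)} (hP : InBox N P) (hQ : InBox N Q) :
    InBox N (P - Q) := by
  rw [sub_eq_add_neg]; exact hP.add hQ.neg

theorem InBox.nsmul {N : ℕ} {P : PowerSeries (LP ι A)} (hP : InBox N P) (k : ℕ) :
    InBox N (k • P) := by
  intro n u hnu
  refine hP n u fun h => hnu ?_
  rw [map_nsmul, AddMonoidAlgebra.coeff_smul, Finsupp.smul_apply, h, smul_zero]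

theorem InBox.mul {N N' : ℕ} {P Q : PowerSeries (LP ι A)} (hP : InBox N P) (hQ : InBox N' Q) :
    InBox (N + N') (P * Q) := by
  classical
  intro n u hnu
  rw [coeff_mul, AddMonoidAlgebra.coeff_sum, Finsupp.finsetSum_apply] at hnu
  obtain ⟨x, hx, hxu⟩ := Finset.exists_ne_zero_of_sum_ne_zero hnu
  have h1 : u ∈ (coeff x.1 P * coeff x.2 Q).coeff.support := Finsupp.mem_support_iff.2 hxu
  have h2 := AddMonoidAlgebra.support_coeff_mul_subset _ _ h1
  obtain ⟨v, hv, w, hw, rfl⟩ := Finset.mem_add.1 h2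
  obtain ⟨h3, h4⟩ := hP x.1 v (Finsupp.mem_support_iff.1 hv)
  obtain ⟨h5, h6⟩ := hQ x.2 w (Finsupp.mem_support_iff.1 hw)
  rw [Finset.HasAntidiagonal.mem_antidiagonal] at hx
  refine ⟨by omega, fun i => ?_⟩
  rw [Pi.add_apply]
  refine (abs_add_le _ _).trans ?_
  push_cast
  exact add_le_add (h4 i) (h6 i)

theorem inBox_one : InBox 0 (1 : PowerSeries (LP ι A)) := by
  classical
  intro n u hnu
  rw [coeff_one] at hnu
  by_cases hn : n = 0
  · rw [if_pos hn, AddMonoidAlgebra.one_def, AddMonoidAlgebra.coeff_single] at hnu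
    refine ⟨hn.le, fun i => ?_⟩
    have : u = 0 := by
      by_contra hc
      exact hnu (Finsupp.single_eq_of_ne hc)
    simp [this]
  · rw [if_neg hn] at hnu
    exact absurd rfl hnu

theorem InBox.pow {N : ℕ} {P : PowerSeries (LP ι A)} (hP : InBox N P) (k : ℕ) :
    InBox (k * N) (P ^ k) := by
  induction k with
  | zero => simpa using inBox_one
  | succ k ih =>
    rw [pow_succ, Nat.succ_mul]
    exact ih.mul hP

theorem inBox_poly (g : Polynomial (LP ι A)) :
    ∃ N, InBox N (g : PowerSeries (LP ι A)) := by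
  classical
  refine ⟨g.natDegree + ∑ n ∈ g.support, ∑ u ∈ (g.coeff n).coeff.support, ∑ i, (u i).natAbs,
    fun n u hnu => ?_⟩
  rw [Polynomial.coeff_coe] at hnu
  have hn : n ∈ g.support := by
    rw [Polynomial.mem_support_iff]
    intro h
    rw [h] at hnu
    exact hnu rfl
  refine ⟨(Polynomial.le_natDegree_of_mem_supp n hn).trans (Nat.le_add_right _ _), fun i => ?_⟩
  have h1 : (u i).natAbs ≤ ∑ i, (u i).natAbs :=
    Finset.single_le_sum (f := fun i => (u i).natAbs) (fun _ _ => Nat.zero_le _)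
      (Finset.mem_univ i)
  have h2 : ∑ i, (u i).natAbs ≤ ∑ u ∈ (g.coeff n).coeff.support, ∑ i, (u i).natAbs :=
    Finset.single_le_sum (f := fun u : ι → ℤ => ∑ i, (u i).natAbs) (fun _ _ => Nat.zero_le _)
      (Finsupp.mem_support_iff.2 hnu)
  have h3 : ∑ u ∈ (g.coeff n).coeff.support, ∑ i, (u i).natAbs ≤
      ∑ n ∈ g.support, ∑ u ∈ (g.coeff n).coeff.support, ∑ i, (u i).natAbs :=
    Finset.single_le_sum (f := fun n : ℕ => ∑ u ∈ (g.coeff n).coeff.support, ∑ i, (u i).natAbs)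
      (fun _ _ => Nat.zero_le _) hn
  have h4 : |u i| = ((u i).natAbs : ℤ) := by rw [Int.natCast_natAbs]
  rw [h4]
  exact_mod_cast (h1.trans (h2.trans h3)).trans (Nat.le_add_left _ _)

theorem inBox_xm (u : ι → ℤ) : ∃ N, InBox N (xm u : PowerSeries (LP ι A)) := by
  obtain ⟨N, hN⟩ := inBox_poly (Polynomial.C (AddMonoidAlgebra.single u (1 : A)) :
    Polynomial (LP ι A))
  refine ⟨N, ?_⟩
  rwa [Polynomial.coe_C] at hN

theorem inBox_X : InBox 1 (X : PowerSeries (LP ι A)) := by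
  classical
  intro n u hnu
  rw [coeff_X] at hnu
  by_cases hn : n = 1
  · rw [if_pos hn, AddMonoidAlgebra.one_def, AddMonoidAlgebra.coeff_single] at hnu
    refine ⟨hn.le, fun i => ?_⟩
    have : u = 0 := by
      by_contra hc
      exact hnu (Finsupp.single_eq_of_ne hc)
    simp [this]
  · rw [if_neg hn] at hnu
    exact absurd rfl hnu

/-- A derivation which maps the box of size `N` to the box of size `N + 1`. -/
def IsDer (d : PowerSeries (LP ι A) → PowerSeries (LP ι A)) : Prop :=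
  (∀ P Q, d (P * Q) = P * d Q + d P * Q) ∧ ∀ N Q, InBox N Q → InBox (N + 1) (d Q)

theorem isDer_dT (i : ι) : IsDer (dT i : PowerSeries (LP ι A) → PowerSeries (LP ι A)) := by
  refine ⟨dT_mul i, fun N Q hQ n u hnu => ?_⟩
  rw [dT, coeff_mk, dL_coeff] at hnu
  obtain ⟨h1, h2⟩ := hQ n _ (right_ne_zero_of_mul hnu)
  refine ⟨h1.trans (Nat.le_succ _), fun j => ?_⟩
  have h3 := h2 j
  rw [Pi.add_apply] at h3
  have h4 : |(Pi.single i 1 : ι → ℤ) j| ≤ 1 := by
    by_cases hj : j = i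
    · subst hj; simp
    · simp [hj]
  have h5 : |u j| ≤ |u j + (Pi.single i 1 : ι → ℤ) j| + |(Pi.single i 1 : ι → ℤ) j| := by
    have := abs_sub (u j + (Pi.single i 1 : ι → ℤ) j) ((Pi.single i 1 : ι → ℤ) j)
    simpa using this
  push_cast
  linarith

theorem isDer_dX : IsDer (d⁄dX (LP ι A) : PowerSeries (LP ι A) → PowerSeries (LP ι A)) := by
  refine ⟨fun P Q => ?_, fun N Q hQ n u hnu => ?_⟩
  · rw [Derivation.leibniz, smul_eq_mul, smul_eq_mul, mul_comm Q]
  · rw [coeff_derivative] at hnu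
    have h : (coeff (n + 1) Q).coeff u ≠ 0 := by
      intro h
      apply hnu
      have h1 : coeff (n + 1) Q * ((n : LP ι A) + 1) = (n + 1) • coeff (n + 1) Q := by
        rw [nsmul_eq_mul]; push_cast; ring
      rw [h1, AddMonoidAlgebra.coeff_smul, Finsupp.smul_apply, h, smul_zero]
    obtain ⟨h1, h2⟩ := hQ _ _ h
    exact ⟨by omega, fun i => (h2 i).trans (by push_cast; linarith)⟩

theorem IsDer.one {d : PowerSeries (LP ι A) → PowerSeries (LP ι A)} (hd : IsDer d) :
    d 1 = 0 := by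
  have h := hd.1 1 1
  simp only [one_mul, mul_one] at h
  exact (add_eq_left.1 h.symm)

theorem IsDer.pow {d : PowerSeries (LP ι A) → PowerSeries (LP ι A)} (hd : IsDer d)
    (h : PowerSeries (LP ι A)) (n : ℕ) : h * d (h ^ n) = n • (h ^ n * d h) := by
  induction n with
  | zero => simp [hd.one]
  | succ n ih =>
    rw [pow_succ, hd.1, mul_add, ← mul_assoc h (d (h ^ n)) h, ih, succ_nsmul]
    simp only [nsmul_eq_mul]
    ring

theorem step_der {d : PowerSeries (LP ι A) → PowerSeries (LP ι A)} (hd : IsDer d) {C₀ : ℕ}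
    {F g₁ R : PowerSeries (LP ι A)} (hg : InBox C₀ g₁) (hdg : InBox C₀ (d g₁)) (hR : InBox C₀ R)
    (hF : g₁ * d F = R * F) {n N : ℕ} {G Q : PowerSeries (LP ι A)} (hG : g₁ ^ n * G = Q * F)
    (hQ : InBox N Q) :
    ∃ Q', g₁ ^ (n + 1) * d G = Q' * F ∧ InBox (N + (C₀ + 1)) Q' := by
  refine ⟨g₁ * d Q + Q * R - n • (d g₁ * Q), ?_, ?_⟩
  · have h1 : d (g₁ ^ n * G) = d (Q * F) := by rw [hG]
    rw [hd.1, hd.1] at h1
    have h2 := hd.pow g₁ n
    have h3 : g₁ * (g₁ ^ n * d G + d (g₁ ^ n) * G) = g₁ * (Q * d F + d Q * F) := by rw [h1]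
    have h4 : g₁ ^ (n + 1) * d G = g₁ * (Q * d F + d Q * F) - (g₁ * d (g₁ ^ n)) * G := by
      rw [← h3, pow_succ]; ring
    rw [h4, h2]
    simp only [nsmul_eq_mul]
    linear_combination Q * hF - (n : PowerSeries (LP ι A)) * d g₁ * hG
  · refine InBox.sub (InBox.add ?_ ?_) ?_
    · exact (hg.mul (hd.2 N Q hQ)).mono (by omega)
    · exact (hQ.mul hR).mono (by omega)
    · exact ((hdg.mul hQ).nsmul n).mono (by omega)

/-- The coefficient of the iterated derivatives. -/
noncomputable def pc (c : ι → ℕ) (u : ι → ℤ) : A :=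
  ∏ i, ∏ j ∈ range (c i), ((u i + j + 1 : ℤ) : A)

theorem pc_zero (u : ι → ℤ) : (pc (fun _ => 0) u : A) = 1 := by simp [pc]

theorem prod_upd (f g : ι → A) (i : ι) (a : A) (h1 : ∀ k, k ≠ i → f k = g k)
    (h2 : a * f i = g i) : a * ∏ k, f k = ∏ k, g k := by
  rw [← Finset.mul_prod_erase univ f (Finset.mem_univ i),
    ← Finset.mul_prod_erase univ g (Finset.mem_univ i), ← mul_assoc, h2]
  congr 1
  exact Finset.prod_congr rfl fun k hk => h1 k (Finset.mem_erase.1 hk).1

theorem pc_succ (c : ι → ℕ) (i : ι) (u : ι → ℤ) :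
    ((u i + 1 : ℤ) : A) * pc c (u + Pi.single i 1) = pc (c + Pi.single i 1) u := by
  unfold pc
  refine prod_upd _ _ i _ (fun k hk => ?_) ?_
  · rw [Pi.add_apply, Pi.add_apply, Pi.single_eq_of_ne hk, Pi.single_eq_of_ne hk, add_zero,
      add_zero]
  · rw [Pi.add_apply, Pi.add_apply, Pi.single_eq_same, Pi.single_eq_same,
      Finset.prod_range_succ', mul_comm]
    congr 1
    · refine Finset.prod_congr rfl fun j _ => ?_
      push_cast; ring
    · push_cast; ring

theorem exists_dx {C₀ : ℕ} {F g₁ : PowerSeries (LP ι A)} (hg : InBox C₀ g₁)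
    (hdg : ∀ i, InBox C₀ (dT i g₁)) {R : ι → PowerSeries (LP ι A)} (hR : ∀ i, InBox C₀ (R i))
    (hF : ∀ i, g₁ * dT i F = R i * F) (s : ℕ) :
    ∀ c : ι → ℕ, ∑ i, c i = s → ∃ G Q : PowerSeries (LP ι A),
      (∀ n u, (coeff n G).coeff u = pc c u * (coeff n F).coeff (fun i => u i + (c i : ℤ))) ∧
      g₁ ^ s * G = Q * F ∧ InBox (s * (C₀ + 1)) Q := by
  induction s with
  | zero =>
    intro c hc
    have h0 : c = fun _ => 0 := by
      funext i
      exact Finset.sum_eq_zero_iff.1 hc i (Finset.mem_univ i)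
    subst h0
    refine ⟨F, 1, fun n u => ?_, by simp, by simpa using inBox_one⟩
    rw [pc_zero]; simp
  | succ s ih =>
    intro c hc
    obtain ⟨i, hi⟩ : ∃ i, c i ≠ 0 := by
      by_contra h
      push Not at h
      simp [h] at hc
    obtain ⟨c', rfl⟩ : ∃ c' : ι → ℕ, c = c' + Pi.single i 1 := by
      refine ⟨c - Pi.single i 1, ?_⟩
      funext j
      change c j = (c j - (Pi.single i 1 : ι → ℕ) j) + (Pi.single i 1 : ι → ℕ) j
      by_cases hj : j = i
      · subst hj
        rw [Pi.single_eq_same]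
        omega
      · rw [Pi.single_eq_of_ne hj]
        rfl
    have hc' : ∑ j, c' j = s := by
      rw [Finset.sum_congr rfl (fun j _ => Pi.add_apply c' (Pi.single i 1) j),
        Finset.sum_add_distrib, Finset.sum_pi_single', if_pos (Finset.mem_univ i)] at hc
      omega
    obtain ⟨G, Q, h1, h2, h3⟩ := ih c' hc'
    obtain ⟨Q', h4, h5⟩ := step_der (isDer_dT i) hg (hdg i) (hR i) (hF i) h2 h3
    refine ⟨dT i G, Q', fun n u => ?_, h4, ?_⟩
    · rw [dT, coeff_mk, dL_coeff, h1, ← mul_assoc, pc_succ]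
      congr 2
      funext j
      rw [Pi.add_apply, Pi.add_apply]
      push_cast
      by_cases hj : j = i
      · subst hj; rw [Pi.single_eq_same, Pi.single_eq_same]; push_cast; ring
      · rw [Pi.single_eq_of_ne hj, Pi.single_eq_of_ne hj]; push_cast; ring
    · rw [Nat.succ_mul]; exact h5

theorem iter_dx {C₀ : ℕ} {F g₁ R : PowerSeries (LP ι A)} (hg : InBox C₀ g₁)
    (hdg : InBox C₀ (d⁄dX (LP ι A) g₁)) (hR : InBox C₀ R)
    (hF : g₁ * d⁄dX (LP ι A) F = R * F) {s : ℕ} {G Q : PowerSeries (LP ι A)}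
    (h2 : g₁ ^ s * G = Q * F) (h3 : InBox (s * (C₀ + 1)) Q) (b : ℕ) :
    ∃ Q', g₁ ^ (s + b) * (d⁄dX (LP ι A))^[b] G = Q' * F ∧ InBox ((s + b) * (C₀ + 1)) Q' := by
  induction b with
  | zero => exact ⟨Q, h2, h3⟩
  | succ b ih =>
    obtain ⟨Q', h4, h5⟩ := ih
    obtain ⟨Q'', h6, h7⟩ := step_der isDer_dX hg hdg hR hF h4 h5
    refine ⟨Q'', ?_, ?_⟩
    · rw [Function.iterate_succ_apply']
      exact h6
    · have : (s + (b + 1)) * (C₀ + 1) = (s + b) * (C₀ + 1) + (C₀ + 1) := by ring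
      rw [this]; exact h7

theorem cx_dX (u : ι → ℤ) (P : PowerSeries (LP ι A)) :
    cx u (d⁄dX (LP ι A) P) = d⁄dX A (cx u P) := by
  ext n
  rw [coeff_derivative]
  simp only [cx, coeff_mk]
  rw [coeff_derivative]
  have h1 : coeff (n + 1) P * ((n : LP ι A) + 1) = (n + 1) • coeff (n + 1) P := by
    rw [nsmul_eq_mul]; push_cast; ring
  rw [h1, AddMonoidAlgebra.coeff_smul, Finsupp.smul_apply, nsmul_eq_mul]
  push_cast; ring

theorem cx_iter (u : ι → ℤ) (P : PowerSeries (LP ι A)) (b : ℕ) :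
    cx u ((d⁄dX (LP ι A))^[b] P) = (d⁄dX A)^[b] (cx u P) := by
  induction b generalizing P with
  | zero => rfl
  | succ b ih => rw [Function.iterate_succ_apply, Function.iterate_succ_apply, ih, cx_dX]

theorem iter_C (a : A) (f : PowerSeries A) (b : ℕ) :
    (d⁄dX A)^[b] (PowerSeries.C a * f) = PowerSeries.C a * (d⁄dX A)^[b] f := by
  induction b generalizing f with
  | zero => rfl
  | succ b ih =>
    rw [Function.iterate_succ_apply, Function.iterate_succ_apply, ← ih]
    congr 1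
    rw [Derivation.leibniz, derivative_C, smul_zero, add_zero, smul_eq_mul]

theorem coeff_cst_C (a : A) (P : PowerSeries (LP ι A)) (n : ℕ) (u : ι → ℤ) :
    (coeff n (P * cst (PowerSeries.C a))).coeff u = (coeff n P).coeff u * a := by
  have h := congrArg (coeff n) (cx_mul_cst u P (PowerSeries.C a))
  rw [coeff_mul_C] at h
  simpa [cx] using h

end Lip

theorem lin_dep {A X : Type} [CommRing A] [IsDomain A] [Fintype X] {Y : Type} (s : Finset Y)
    (v : X → Y → A) (h : s.card < Fintype.card X) :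
    ∃ lam : X → A, (∃ x, lam x ≠ 0) ∧ ∀ y ∈ s, ∑ x, lam x * v x y = 0 := by
  classical
  have h1 : ¬ LinearIndependent A (fun x : X => fun y : s => v x y) := by
    intro hl
    have := hl.fintype_card_le_finrank
    rw [Module.finrank_fintype_fun_eq_card, Fintype.card_coe] at this
    omega
  rw [Fintype.not_linearIndependent_iff] at h1
  obtain ⟨g, hg, hx⟩ := h1
  refine ⟨g, hx, fun y hy => ?_⟩
  have := congrFun hg ⟨y, hy⟩
  simpa [Finset.sum_apply] using this

/-- The power series over the Laurent polynomials. -/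
abbrev TT (ι A : Type) [CommRing A] : Type := PowerSeries (LP ι A)

theorem lipRel : S_LipRel := by
  classical
  intro ι A _ _ _ _ _ m g ψ u₀ hm hψ
  set F : TT ι A := xm u₀ * ψ with hFdef
  set gT : TT ι A := (g : PowerSeries (LP ι A)) with hgT
  set g₁ : TT ι A := (m : TT ι A) * gT with hg₁
  -- the logarithmic derivatives
  have hlog : ∀ d : TT ι A → TT ι A, IsDer d → g₁ * d F =
      ((m : TT ι A) * gT * (xm (-u₀) * d (xm u₀)) - d gT) * F := by
    intro d hd
    have h1 : d (ψ ^ m * gT) = 0 := by rw [hψ]; exact hd.one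
    rw [hd.1] at h1
    have h2 := hd.pow ψ m
    have h3 : ψ * d gT + (m : TT ι A) * gT * d ψ = 0 := by
      have h4 : gT * (ψ * (ψ ^ m * d gT + d (ψ ^ m) * gT)) = 0 := by rw [h1]; ring
      have h5 : gT * (ψ * (ψ ^ m * d gT + d (ψ ^ m) * gT)) =
          (ψ ^ m * gT) * (ψ * d gT) + gT * gT * (ψ * d (ψ ^ m)) := by ring
      rw [h5, h2, nsmul_eq_mul] at h4
      have h6 : (ψ ^ m * gT) * (ψ * d gT) + gT * gT * ((m : TT ι A) * (ψ ^ m * d ψ)) =
          (ψ ^ m * gT) * (ψ * d gT + (m : TT ι A) * gT * d ψ) := by ring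
      rw [h6, hψ, one_mul] at h4
      exact h4
    have h7 : (xm (-u₀) : TT ι A) * xm u₀ = 1 := by
      simp only [xm]
      rw [← map_mul, AddMonoidAlgebra.single_mul_single, neg_add_cancel, mul_one,
        ← AddMonoidAlgebra.one_def, map_one]
    rw [hFdef, hd.1, hg₁]
    linear_combination (xm u₀ : TT ι A) * h3 - (m : TT ι A) * gT * d (xm u₀) * ψ * h7
  -- the constants
  obtain ⟨N₁, hN₁⟩ := inBox_poly g
  obtain ⟨N₂, hN₂⟩ := inBox_xm (A := A) u₀
  obtain ⟨N₃, hN₃⟩ := inBox_xm (A := A) (-u₀)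
  have hg₁b : InBox N₁ g₁ := by
    rw [hg₁, ← nsmul_eq_mul]; exact hN₁.nsmul m
  set C₀ : ℕ := N₁ + N₂ + N₃ + 1 with hC₀
  have hRb : ∀ d : TT ι A → TT ι A, IsDer d →
      InBox C₀ ((m : TT ι A) * gT * (xm (-u₀) * d (xm u₀)) - d gT) := by
    intro d hd
    refine InBox.sub ?_ ?_
    · exact (hg₁b.mul (hN₃.mul (hd.2 _ _ hN₂))).mono (by omega)
    · exact (hd.2 _ _ hN₁).mono (by omega)
  have hg₁b' : InBox C₀ g₁ := hg₁b.mono (by omega)
  have hdg : ∀ d : TT ι A → TT ι A, IsDer d → InBox C₀ (d g₁) := fun d hd =>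
    (hd.2 _ _ hg₁b).mono (by omega)
  -- the derivatives
  have hall : ∀ c : ι → ℕ, ∃ G : TT ι A, (∀ n u, (coeff n G).coeff u =
      pc c u * (coeff n F).coeff (fun i => u i + (c i : ℤ))) ∧ ∀ b, ∃ Q : TT ι A,
        g₁ ^ (∑ i, c i + b) * (d⁄dX (LP ι A))^[b] G = Q * F ∧
          InBox ((∑ i, c i + b) * (C₀ + 1)) Q := by
    intro c
    obtain ⟨G, Q, h1, h2, h3⟩ := exists_dx hg₁b' (fun i => hdg _ (isDer_dT i))
      (fun i => hRb _ (isDer_dT i)) (fun i => hlog _ (isDer_dT i)) _ c rfl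
    exact ⟨G, h1, fun b => iter_dx hg₁b' (hdg _ isDer_dX) (hRb _ isDer_dX) (hlog _ isDer_dX)
      h2 h3 b⟩
  choose G hG Q hQ hQb using hall
  -- the counting
  set e : ℕ := Fintype.card ι with he
  set C₂ : ℕ := 1 + (e + 1) * (C₀ + 1) with hC₂
  set M : ℕ := (C₂ + 1) * (2 * C₂ + 1) ^ e + 1 with hM
  set L : ℕ := (e + 1) * M with hL
  set K : ℕ := C₂ * M with hK
  have hM1 : 1 ≤ M := by omega
  let Xt := Fin M × Fin M × (ι → Fin M)
  let P : Xt → TT ι A := fun x => X ^ (x.1 : ℕ) *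
    (g₁ ^ (L - (∑ i, (x.2.2 i : ℕ) + (x.2.1 : ℕ))) * Q (fun i => (x.2.2 i : ℕ)) x.2.1)
  have hsl : ∀ x : Xt, ∑ i, (x.2.2 i : ℕ) + (x.2.1 : ℕ) ≤ L := by
    intro x
    have h1 : ∑ i, (x.2.2 i : ℕ) ≤ ∑ _i : ι, M := Finset.sum_le_sum fun i _ => (x.2.2 i).2.le
    rw [Finset.sum_const, Finset.card_univ, smul_eq_mul, ← he] at h1
    have h2 := x.2.1.2
    have h3 : L = e * M + M := by rw [hL]; ring
    omega
  have hPb : ∀ x, InBox K (P x) := by
    intro x
    have h1 := (inBox_X (ι := ι) (A := A)).pow (x.1 : ℕ)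
    have h2 := hg₁b'.pow (L - (∑ i, (x.2.2 i : ℕ) + (x.2.1 : ℕ)))
    have h3 := hQb (fun i => (x.2.2 i : ℕ)) x.2.1
    refine (h1.mul (h2.mul h3)).mono ?_
    have h4 := hsl x
    have h5 : (L - (∑ i, (x.2.2 i : ℕ) + (x.2.1 : ℕ))) * C₀ +
        (∑ i, (x.2.2 i : ℕ) + (x.2.1 : ℕ)) * (C₀ + 1) ≤ L * (C₀ + 1) := by
      calc _ ≤ (L - (∑ i, (x.2.2 i : ℕ) + (x.2.1 : ℕ))) * (C₀ + 1) +
            (∑ i, (x.2.2 i : ℕ) + (x.2.1 : ℕ)) * (C₀ + 1) := by gcongr; omega
        _ = _ := by rw [← add_mul, Nat.sub_add_cancel h4]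
    have h6 : K = M + L * (C₀ + 1) := by rw [hK, hC₂, hL]; ring
    have h7 := x.1.2
    rw [h6, mul_one]
    exact add_le_add h7.le h5
  let s : Finset (ℕ × (ι → ℤ)) :=
    range (K + 1) ×ˢ Fintype.piFinset (fun _ : ι => Finset.Icc (-(K : ℤ)) K)
  have hs : s.card < Fintype.card Xt := by
    have h1 : s.card = (K + 1) * (2 * K + 1) ^ e := by
      simp only [s, Finset.card_product, Finset.card_range]
      rw [Fintype.card_piFinset, Finset.prod_const, Int.card_Icc, Finset.card_univ, ← he]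
      congr 2
      omega
    have h2 : Fintype.card Xt = M * (M * M ^ e) := by
      simp only [Xt, Fintype.card_prod, Fintype.card_fin, Fintype.card_pi, Finset.prod_const,
        Finset.card_univ]
      rfl
    rw [h1, h2]
    have h3 : K + 1 ≤ (C₂ + 1) * M := by rw [hK]; nlinarith
    have h4 : 2 * K + 1 ≤ (2 * C₂ + 1) * M := by rw [hK]; nlinarith
    calc (K + 1) * (2 * K + 1) ^ e ≤ ((C₂ + 1) * M) * ((2 * C₂ + 1) * M) ^ e := by gcongr
      _ = ((C₂ + 1) * (2 * C₂ + 1) ^ e) * (M * M ^ e) := by rw [mul_pow]; ring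
      _ < M * (M * M ^ e) := by
        refine Nat.mul_lt_mul_of_pos_right ?_ (by positivity)
        omega
  obtain ⟨lam, ⟨x₀, hx₀⟩, hlam⟩ := lin_dep s (fun x y => (coeff y.1 (P x)).coeff y.2) hs
  have hsum : ∑ x, P x * cst (PowerSeries.C (lam x)) = 0 := by
    ext n u
    rw [map_sum, AddMonoidAlgebra.coeff_sum, Finsupp.finsetSum_apply]
    simp only [coeff_cst_C, map_zero]
    by_cases hy : (n, u) ∈ s
    · have := hlam (n, u) hy
      simp only [mul_comm (lam _)] at this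
      simpa using this
    · refine (Finset.sum_eq_zero fun x _ => ?_).trans (by simp)
      have : (coeff n (P x)).coeff u = 0 := by
        by_contra hc
        obtain ⟨h1, h2⟩ := hPb x n u hc
        apply hy
        simp only [s, Finset.mem_product, Finset.mem_range, Fintype.mem_piFinset,
          Finset.mem_Icc]
        exact ⟨by omega, fun i => abs_le.1 (h2 i)⟩
      rw [this, zero_mul]
  -- the relation
  have hrel : ∑ x : Xt, (X ^ (x.1 : ℕ) * (d⁄dX (LP ι A))^[(x.2.1 : ℕ)]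
      (G fun i => (x.2.2 i : ℕ))) * cst (PowerSeries.C (lam x)) = 0 := by
    set S0 := ∑ x : Xt, (X ^ (x.1 : ℕ) * (d⁄dX (LP ι A))^[(x.2.1 : ℕ)]
      (G fun i => (x.2.2 i : ℕ))) * cst (PowerSeries.C (lam x)) with hS0
    have h1 : g₁ ^ L * S0 = (∑ x, P x * cst (PowerSeries.C (lam x))) * F := by
      rw [hS0, Finset.mul_sum, Finset.sum_mul]
      refine Finset.sum_congr rfl fun x _ => ?_
      have h2 := hQ (fun i => (x.2.2 i : ℕ)) x.2.1
      have h3 : g₁ ^ L = g₁ ^ (L - (∑ i, (x.2.2 i : ℕ) + (x.2.1 : ℕ))) *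
          g₁ ^ (∑ i, (x.2.2 i : ℕ) + (x.2.1 : ℕ)) := by
        rw [← pow_add, Nat.sub_add_cancel (hsl x)]
      rw [h3]
      simp only [P]
      linear_combination X ^ (x.1 : ℕ) *
        g₁ ^ (L - (∑ i, (x.2.2 i : ℕ) + (x.2.1 : ℕ))) * cst (PowerSeries.C (lam x)) * h2
    rw [hsum, zero_mul] at h1
    have h2 : ((m : TT ι A) ^ L) * S0 = 0 := by
      have h3 : (ψ ^ m) ^ L * (g₁ ^ L * S0) = (m : TT ι A) ^ L * ((ψ ^ m * gT) ^ L * S0) := by
        rw [hg₁, mul_pow, mul_pow]; ring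
      rw [h1, mul_zero, hψ, one_pow, one_mul] at h3
      exact h3.symm
    have h4 : (m ^ L) • S0 = 0 := by
      rw [nsmul_eq_mul]; push_cast; exact h2
    ext n u
    have h5 : (coeff n ((m ^ L) • S0)).coeff u = (coeff n (0 : TT ι A)).coeff u := by rw [h4]
    rw [map_nsmul, AddMonoidAlgebra.coeff_smul, Finsupp.smul_apply, nsmul_eq_mul,
      map_zero] at h5
    have h6 : ((m ^ L : ℕ) : A) ≠ 0 := Nat.cast_ne_zero.2 (pow_ne_zero _ hm)
    rcases mul_eq_zero.1 (h5.trans (by simp)) with h7 | h7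
    · exact absurd h7 h6
    · rw [h7]; simp
  -- the coefficients
  refine ⟨M, fun a b c => if h : a < M ∧ b < M ∧ ∀ i, c i < M then
    lam (⟨a, h.1⟩, ⟨b, h.2.1⟩, fun i => ⟨c i, h.2.2 i⟩) else 0, ?_, ?_⟩
  · refine ⟨x₀.1, Finset.mem_range.2 x₀.1.2, x₀.2.1, Finset.mem_range.2 x₀.2.1.2,
      fun i => (x₀.2.2 i : ℕ), ?_, ?_⟩
    · rw [Fintype.mem_piFinset]
      exact fun i => Finset.mem_range.2 (x₀.2.2 i).2
    · have h : (x₀.1 : ℕ) < M ∧ (x₀.2.1 : ℕ) < M ∧ ∀ i, (x₀.2.2 i : ℕ) < M :=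
        ⟨x₀.1.2, x₀.2.1.2, fun i => (x₀.2.2 i).2⟩
      dsimp only
      rw [dif_pos h]
      exact hx₀
  · intro u
    have h1 := congrArg (cx u) hrel
    rw [cx_sum, cx_zero] at h1
    rw [← h1]
    -- rewrite the right side as a triple sum
    have h2 : ∀ x : Xt, cx u ((X ^ (x.1 : ℕ) * (d⁄dX (LP ι A))^[(x.2.1 : ℕ)]
        (G fun i => (x.2.2 i : ℕ))) * cst (PowerSeries.C (lam x))) =
        PowerSeries.C (lam x * ∏ i, ∏ j ∈ range (x.2.2 i : ℕ), ((u i + j + 1 : ℤ) : A)) *
          PowerSeries.X ^ (x.1 : ℕ) * (d⁄dX A)^[(x.2.1 : ℕ)]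
            (cx (fun i => u i + ((x.2.2 i : ℕ) : ℤ)) (xm u₀ * ψ)) := by
      intro x
      have h3 : (X : TT ι A) ^ (x.1 : ℕ) = cst (X ^ (x.1 : ℕ)) := by
        simp [cst]
      have h4 : cx u (G fun i => (x.2.2 i : ℕ)) =
          PowerSeries.C (pc (fun i => (x.2.2 i : ℕ)) u) *
            cx (fun i => u i + ((x.2.2 i : ℕ) : ℤ)) F := by
        ext n
        rw [coeff_C_mul]
        simp only [cx, coeff_mk]
        exact hG _ n u
      rw [cx_mul_cst, h3, mul_comm (cst _), cx_mul_cst, cx_iter, h4, iter_C, map_mul]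
      simp only [pc]
      ring
    rw [Finset.sum_congr rfl fun x _ => h2 x]
    rw [Fintype.sum_prod_type]
    rw [Finset.sum_range]
    refine Finset.sum_congr rfl fun a _ => ?_
    rw [Fintype.sum_prod_type, Finset.sum_range]
    refine Finset.sum_congr rfl fun b _ => ?_
    symm
    refine Finset.sum_bij' (fun c _ => fun i => (c i : ℕ))
      (fun c hc => fun i => ⟨c i, Finset.mem_range.1 (Fintype.mem_piFinset.1 hc i)⟩)
      ?_ ?_ ?_ ?_ ?_
    · intro c _
      rw [Fintype.mem_piFinset]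
      exact fun i => Finset.mem_range.2 (c i).2
    · intro c _; exact Finset.mem_univ _
    · intro c _; rfl
    · intro c _; rfl
    · intro c _
      have h : (a : ℕ) < M ∧ (b : ℕ) < M ∧ ∀ i, (c i : ℕ) < M :=
        ⟨a.2, b.2, fun i => (c i).2⟩
      dsimp only
      rw [dif_pos h]


end Pool.Agent.Q299.ST
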