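import Pool.Agent.Q299.ST.Growth

/-!
# The soft Stepanov theorem
-/

set_option autoImplicit false

open Finset

namespace Pool.Agent.Q299.ST

open Pool.Agent.Q267.ST

section Gen

variable {R S : Type*} [CommRing R] [CommRing S] [Algebra R S] {κ : ℕ} (y : Fin (κ + 1) → S)

/-- The module of the monomials of degree `n`. -/
def V (R : Type*) {S : Type*} [CommRing R] [CommRing S] [Algebra R S] {κ : ℕ}
    (y : Fin (κ + 1) → S) (n : ℕ) : Submodule R S :=
  Submodule.span R (mono y '' (Ex κ n : Set (Fin (κ + 1) → ℕ)))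

theorem mono_mem {n : ℕ} {e : Fin (κ + 1) → ℕ} (he : ∑ l, e l = n) : mono y e ∈ V R y n :=
  Submodule.subset_span ⟨e, mem_Ex.2 he, rfl⟩

theorem mono_add (e e' : Fin (κ + 1) → ℕ) : mono y (e + e') = mono y e * mono y e' := by
  unfold mono
  rw [← Finset.prod_mul_distrib]
  exact Finset.prod_congr rfl fun l _ => by rw [Pi.add_apply, pow_add]

theorem mono_single (l : Fin (κ + 1)) : mono y (Pi.single l 1) = y l := by
  unfold mono
  rw [Finset.prod_eq_single l]
  · simp
  · intro b _ hb; simp [hb]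
  · simp

theorem mul_mem_V {m n : ℕ} {f g : S} (hf : f ∈ V R y m) (hg : g ∈ V R y n) :
    f * g ∈ V R y (m + n) := by
  have h : V R y m * V R y n ≤ V R y (m + n) := by
    unfold V
    rw [Submodule.span_mul_span]
    refine Submodule.span_mono ?_
    rintro _ ⟨_, ⟨e, he, rfl⟩, _, ⟨e', he', rfl⟩, rfl⟩
    refine ⟨e + e', ?_, mono_add y e e'⟩
    have h1 := mem_Ex.1 (Finset.mem_coe.1 he)
    have h2 := mem_Ex.1 (Finset.mem_coe.1 he')
    refine Finset.mem_coe.2 (mem_Ex.2 ?_)
    simp [Finset.sum_add_distrib, h1, h2]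
  exact h (Submodule.mul_mem_mul hf hg)

theorem y_mem (l : Fin (κ + 1)) : y l ∈ V R y 1 := by
  rw [← mono_single y l]
  exact mono_mem y (by simp)

theorem der_mem (d : S → S) (hd : ∀ f g, d (f * g) = f * d g + g * d f) (hd1 : d 1 = 0) (q : R)
    (hq : ∀ l, q • d (y l) ∈ V R y 1) (n : ℕ) :
    ∀ e : Fin (κ + 1) → ℕ, ∑ l, e l = n → q • d (mono y e) ∈ V R y n := by
  induction n with
  | zero =>
    intro e he
    have h0 : ∀ l, e l = 0 := by
      intro l
      exact (Finset.sum_eq_zero_iff.1 he) l (Finset.mem_univ l)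
    have : mono y e = 1 := by unfold mono; simp [h0]
    rw [this, hd1, smul_zero]
    exact Submodule.zero_mem _
  | succ n ih =>
    intro e he
    obtain ⟨l, hl⟩ : ∃ l, e l ≠ 0 := by
      by_contra hc
      push Not at hc
      simp [hc] at he
    have hee : e = (e - Pi.single l 1) + Pi.single l 1 := by
      funext j
      by_cases hj : j = l
      · subst hj
        simp only [Pi.add_apply, Pi.sub_apply, Pi.single_eq_same]
        omega
      · simp [hj]
    set e' := e - Pi.single l 1 with he'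
    have hs : ∑ j, e' j = n := by
      have : ∑ j, e j = ∑ j, e' j + 1 := by
        conv_lhs => rw [hee]
        simp [Finset.sum_add_distrib]
      omega
    rw [hee, mono_add, mono_single, hd, smul_add]
    refine Submodule.add_mem _ ?_ ?_
    · rw [← mul_smul_comm]
      exact mul_mem_V y (mono_mem y hs) (hq l)
    · rw [← mul_smul_comm, add_comm n 1]
      exact mul_mem_V y (y_mem y l) (ih e' hs)

/-- The elements with a multiple in the module of the monomials of `B`. -/
def W (R : Type*) {S : Type*} [CommRing R] [IsDomain R] [CommRing S] [Algebra R S] {κ : ℕ}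
    (y : Fin (κ + 1) → S) (B : Finset (Fin (κ + 1) → ℕ)) : Submodule R S where
  carrier := {f | ∃ (q : R) (c : (Fin (κ + 1) → ℕ) → R), q ≠ 0 ∧
    q • f = ∑ e ∈ B, c e • mono y e}
  zero_mem' := ⟨1, 0, one_ne_zero, by simp⟩
  add_mem' := by
    rintro f g ⟨q, c, hq, h⟩ ⟨q', c', hq', h'⟩
    refine ⟨q * q', fun e => q' * c e + q * c' e, mul_ne_zero hq hq', ?_⟩
    rw [smul_add]
    simp only [add_smul, Finset.sum_add_distrib, mul_smul]
    rw [← Finset.smul_sum, ← Finset.smul_sum, ← h, ← h', smul_comm q q']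
  smul_mem' := by
    rintro r f ⟨q, c, hq, h⟩
    refine ⟨q, fun e => r * c e, hq, ?_⟩
    simp only [mul_smul]
    rw [← Finset.smul_sum, ← h, smul_comm]

theorem W_of_smul [IsDomain R] {B : Finset (Fin (κ + 1) → ℕ)} {q : R} (hq : q ≠ 0) {f : S}
    (h : q • f ∈ W R y B) : f ∈ W R y B := by
  obtain ⟨q', c, hq', h'⟩ := h
  exact ⟨q' * q, c, mul_ne_zero hq' hq, by rw [mul_smul]; exact h'⟩

theorem common [IsDomain R] {B : Finset (Fin (κ + 1) → ℕ)} {n : ℕ} {d : S → S}
    (hd : ∀ f g, d (f * g) = f * d g + g * d f) (hd1 : d 1 = 0) (q : R) (hq0 : q ≠ 0)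
    (hq : ∀ l, q • d (y l) ∈ V R y 1) (hB : ∀ e ∈ B, ∑ l, e l = n)
    (hW : ∀ e : Fin (κ + 1) → ℕ, ∑ l, e l = n → mono y e ∈ W R y B) :
    ∃ (Q : R) (M : (Fin (κ + 1) → ℕ) → (Fin (κ + 1) → ℕ) → R), Q ≠ 0 ∧
      ∀ e ∈ B, Q • d (mono y e) = ∑ e' ∈ B, M e' e • mono y e' := by
  classical
  have hVW : V R y n ≤ W R y B := by
    unfold V
    rw [Submodule.span_le]
    rintro _ ⟨e, he, rfl⟩
    exact hW e (mem_Ex.1 (Finset.mem_coe.1 he))
  have h1 : ∀ e ∈ B, d (mono y e) ∈ W R y B := fun e he =>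
    W_of_smul y hq0 (hVW (der_mem y d hd hd1 q hq n e (hB e he)))
  choose! qe ce hqe hce using h1
  refine ⟨∏ e ∈ B, qe e, fun e' e => (∏ x ∈ B.erase e, qe x) * ce e e',
    Finset.prod_ne_zero_iff.2 hqe, fun e he => ?_⟩
  rw [← Finset.mul_prod_erase B qe he, mul_comm, mul_smul, hce e he, Finset.smul_sum]
  exact Finset.sum_congr rfl fun e' _ => by rw [mul_smul]

end Gen

open PowerSeries in
theorem algMap_eq (A : Type*) [CommRing A] (c : Polynomial A) :
    algebraMap (Polynomial A) (PowerSeries A) c = (c : PowerSeries A) := by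
  rw [PowerSeries.algebraMap_apply']
  simp

open PowerSeries in
theorem smul_eq' (A : Type*) [CommRing A] (c : Polynomial A) (f : PowerSeries A) :
    c • f = (c : PowerSeries A) * f := by
  rw [Algebra.smul_def, algMap_eq]

open PowerSeries in
theorem iter_G {k : Type*} [CommRing k] (G f : PowerSeries k) (hG : d⁄dX k G = 0) (l : ℕ) :
    (d⁄dX k)^[l] (G * f) = G * (d⁄dX k)^[l] f := by
  induction l generalizing f with
  | zero => rfl
  | succ l ih =>
    rw [Function.iterate_succ_apply, Function.iterate_succ_apply, ← ih]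
    congr 1
    rw [Derivation.leibniz, hG, smul_zero, add_zero, smul_eq_mul]

open PowerSeries in
theorem iter_map {A k : Type*} [CommRing A] [CommRing k] (φ : A →+* k) (f : PowerSeries A)
    (l : ℕ) : (d⁄dX k)^[l] (map φ f) = map φ ((d⁄dX A)^[l] f) := by
  induction l generalizing f with
  | zero => rfl
  | succ l ih =>
    rw [Function.iterate_succ_apply, Function.iterate_succ_apply, ← ih]
    congr 1
    ext n
    simp [coeff_derivative]

open PowerSeries in
theorem iter_poly {k : Type*} [CommRing k] (P : Polynomial k) (l : ℕ) :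
    (d⁄dX k)^[l] (P : PowerSeries k) = ((Polynomial.derivative^[l] P : Polynomial k) :
      PowerSeries k) := by
  induction l generalizing P with
  | zero => rfl
  | succ l ih =>
    rw [Function.iterate_succ_apply, Function.iterate_succ_apply, ← ih, derivative_coe]

theorem coe_prod' {k : Type*} [CommRing k] {J : Type*} (s : Finset J) (f : J → Polynomial k) :
    ((∏ j ∈ s, f j : Polynomial k) : PowerSeries k) = ∏ j ∈ s, (f j : PowerSeries k) :=
  map_prod (Polynomial.coeToPowerSeries.ringHom (R := k)) f s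

open PowerSeries in
theorem soft (hAbs : S_Abs) (hGr : S_Growth) : S_Soft := by
  classical
  intro A _ _ _ D hD0 hode ε hε C
  obtain ⟨r, c, hcr, hrel⟩ := hode
  -- the order is positive
  obtain ⟨κ, rfl⟩ : ∃ κ, r = κ + 1 := by
    cases r with
    | zero =>
      exfalso
      simp only [zero_add, Finset.sum_range_one, Function.iterate_zero, id_eq] at hrel
      rcases mul_eq_zero.1 hrel with h | h
      · exact hcr (Polynomial.coe_eq_zero_iff.1 h)
      · exact hD0 h
    | succ κ => exact ⟨κ, rfl⟩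
  set y : Fin (κ + 1) → PowerSeries A := fun l => (d⁄dX A)^[(l : ℕ)] D with hy
  set ε₁ : ℝ := min ε 1 with hε₁
  have hε₁0 : 0 < ε₁ := lt_min hε one_pos
  have hε₁1 : ε₁ ≤ 1 := min_le_right _ _
  have hε₁ε : ε₁ ≤ ε := min_le_left _ _
  have hinj : Function.Injective (Polynomial.coeToPowerSeries.ringHom (R := A)) :=
    Polynomial.coe_injective A
  obtain ⟨m, B, B₀, hm, hB₀, hBne, hBm, hB₀', hind, hspan, hcard⟩ :=
    hGr (Polynomial A) (PowerSeries A) Polynomial.coeToPowerSeries.ringHom hinj κ y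
      (by simpa [hy] using hD0) (ε₁ / (8 * (1 + C))) (by positivity)
  -- the derivatives of the `y l`
  have hq : ∀ l, (c (κ + 1)) • (d⁄dX A (y l)) ∈ V (Polynomial A) y 1 := by
    intro l
    by_cases hl : (l : ℕ) < κ
    · have h1 : d⁄dX A (y l) = y ⟨(l : ℕ) + 1, by omega⟩ := by
        simp only [hy]
        rw [← Function.iterate_succ_apply' (d⁄dX A)]
      rw [h1]
      exact Submodule.smul_mem _ _ (y_mem y _)
    · have hl' : (l : ℕ) = κ := by omega
      have h1 : d⁄dX A (y l) = (d⁄dX A)^[κ + 1] D := by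
        simp only [hy, hl']
        rw [← Function.iterate_succ_apply' (d⁄dX A)]
      rw [Finset.sum_range_succ] at hrel
      have h2 : c (κ + 1) • (d⁄dX A (y l)) = - ∑ j : Fin (κ + 1), c j • y j := by
        rw [h1, smul_eq', eq_neg_iff_add_eq_zero, add_comm]
        rw [← hrel]
        congr 1
        rw [Finset.sum_range]
        exact Finset.sum_congr rfl fun j _ => smul_eq' _ _ _
      rw [h2]
      exact Submodule.neg_mem _ (Submodule.sum_mem _ fun j _ =>
        Submodule.smul_mem _ _ (y_mem y _))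
  have hW : ∀ e : Fin (κ + 1) → ℕ, ∑ l, e l = m → mono y e ∈ W (Polynomial A) y B := by
    intro e he
    obtain ⟨q, c', hq0, h⟩ := hspan e he
    refine ⟨q, c', hq0, ?_⟩
    rw [smul_eq']
    exact h.trans (Finset.sum_congr rfl fun e' _ => (smul_eq' _ _ _).symm)
  obtain ⟨Q, M, hQ, hM⟩ := common y (d := d⁄dX A) (fun f g => by
    rw [Derivation.leibniz, smul_eq_mul, smul_eq_mul]) derivative_one (c (κ + 1)) hcr hq hBm hW
  -- the abstract theorem
  let I := {x // x ∈ B}
  let z : I → PowerSeries A := fun e => mono y e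
  have hz : ∀ c : I → Polynomial A, ∑ i, (c i : PowerSeries A) * z i = 0 → c = 0 := by
    intro c' hc'
    have h := hind (fun e => if h : e ∈ B then c' ⟨e, h⟩ else 0) (by
      rw [← hc', ← Finset.sum_coe_sort B]
      refine Finset.sum_congr rfl fun x _ => ?_
      simp only [Finset.coe_mem, dif_pos, z]
      rfl)
    funext x
    have := h x x.2
    simpa using this
  have hderz : ∀ e : I, (Q : PowerSeries A) * d⁄dX A (z e) =
      ∑ e' : I, (M e' e : PowerSeries A) * z e' := by
    intro e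
    have h := hM e e.2
    rw [smul_eq'] at h
    refine h.trans ?_
    rw [← Finset.sum_coe_sort B]
    exact Finset.sum_congr rfl fun e' _ => smul_eq' _ _ _
  let I₀ : Finset I := Finset.univ.filter fun e => (e : Fin (κ + 1) → ℕ) ∈ B₀
  have hI₀ : I₀.card = B₀.card := by
    have h1 : I₀.map (Function.Embedding.subtype _) = B₀ := by
      ext e
      simp only [I₀, Finset.mem_map, Finset.mem_filter, Finset.mem_univ, true_and,
        Function.Embedding.subtype_apply]
      constructor
      · rintro ⟨x, hx, rfl⟩; exact hx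
      · intro he; exact ⟨⟨e, hB₀ he⟩, he, rfl⟩
    rw [← h1, Finset.card_map]
  have hIc : Fintype.card I = B.card := Fintype.card_coe B
  set N : ℕ := ⌈2 * m * (1 + C) / ε₁⌉₊ with hN
  have hm1 : (1 : ℝ) ≤ m := by exact_mod_cast hm
  have hN1 : 2 * m * (1 + C) / ε₁ ≤ (N : ℝ) := Nat.le_ceil _
  have hN2 : (N : ℝ) < 2 * m * (1 + C) / ε₁ + 1 := Nat.ceil_lt_add_one (by positivity)
  have hNpos : 0 < N := by
    rw [hN, Nat.ceil_pos]; positivity
  have hBc : (0 : ℝ) < B.card := by exact_mod_cast Finset.card_pos.2 hBne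
  have hcond : 2 * N * I₀.card < m * Fintype.card I := by
    rw [hI₀, hIc]
    have h1 : (2 * N * B₀.card : ℝ) < m * B.card := by
      calc (2 * N * B₀.card : ℝ) ≤ 2 * N * (ε₁ / (8 * (1 + C)) * B.card) := by gcongr
        _ ≤ 2 * (2 * m * (1 + C) / ε₁ + 1) * (ε₁ / (8 * (1 + C)) * B.card) := by gcongr
        _ = (m / 2 + ε₁ / (4 * (1 + C))) * B.card := by field_simp; ring
        _ < m * B.card := by
          refine mul_lt_mul_of_pos_right ?_ hBc
          have h2 : ε₁ / (4 * (1 + C)) ≤ 1 / 4 := by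
            rw [div_le_div_iff₀ (by positivity) (by positivity)]
            have : (0 : ℝ) ≤ C := by positivity
            nlinarith
          linarith
    exact_mod_cast h1
  obtain ⟨A₀, p₀, a, ha, habs⟩ := hAbs A I z hz Q (fun e' e => M e' e) hQ hderz I₀ N m hcond
  refine ⟨max p₀ ⌈2 * A₀ / ε⌉₊, a, ha, ?_⟩
  intro p k _ _ φ hp hpp hφ P G hG hG0 hP hdeg T hT
  have h1 := habs p k φ hp ((le_max_left _ _).trans hpp) hφ
    (fun e => ∏ l : Fin (κ + 1), (Polynomial.derivative^[(l : ℕ)] P) ^
      ((e : Fin (κ + 1) → ℕ) l)) (G ^ m)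
    (m * (C * p)) (by rw [derivative_pow, hG, mul_zero])
    (by rw [map_pow]; exact pow_ne_zero _ hG0) ?_ ?_ T ?_
  · have h2 : (N : ℝ) * T.card ≤ m * p + A₀ + m * (C * p) := by exact_mod_cast h1
    have h3 : 2 * A₀ / ε ≤ (p : ℝ) :=
      (Nat.le_ceil _).trans (by exact_mod_cast (le_max_right _ _).trans hpp)
    have h4 : (A₀ : ℝ) ≤ ε / 2 * p := by
      rw [div_le_iff₀ hε] at h3
      linarith
    have hN1' : 2 * m * (1 + C) ≤ ε * (N : ℝ) := by
      rw [div_le_iff₀ hε₁0] at hN1
      have : (N : ℝ) * ε₁ ≤ ε * N := by nlinarith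
      linarith
    have h5 : (N : ℝ) * T.card ≤ N * (ε * p) := by
      have h6 : (m * p + m * (C * p) : ℝ) ≤ ε * N / 2 * p := by
        have hp0 : (0 : ℝ) ≤ p := by positivity
        calc (m * p + m * (C * p) : ℝ) = (2 * m * (1 + C)) / 2 * p := by ring
          _ ≤ ε * N / 2 * p := by gcongr
      have hN1'' : (1 : ℝ) ≤ N := by exact_mod_cast hNpos
      have h7 : (A₀ : ℝ) ≤ N * (ε / 2 * p) := by
        have : (0 : ℝ) ≤ ε / 2 * p := by positivity
        nlinarith
      nlinarith
    exact le_of_mul_le_mul_left h5 (by exact_mod_cast hNpos)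
  · intro e
    rw [coe_prod']
    simp only [z, mono]
    rw [map_prod]
    have hsum : ∑ l, (e : Fin (κ + 1) → ℕ) l = m := hBm e e.2
    rw [← hsum, ← Finset.prod_pow_eq_pow_sum, ← Finset.prod_mul_distrib]
    refine Finset.prod_congr rfl fun l _ => ?_
    rw [Polynomial.coe_pow, map_pow, ← mul_pow]
    congr 1
    rw [← iter_poly, hP, iter_G G _ hG, iter_map]
  · intro e
    refine (Polynomial.natDegree_prod_le _ _).trans ?_
    have hsum : ∑ l, (e : Fin (κ + 1) → ℕ) l = m := hBm e e.2
    rw [← hsum, Finset.sum_mul]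
    refine Finset.sum_le_sum fun l _ => ?_
    refine Polynomial.natDegree_pow_le.trans ?_
    refine Nat.mul_le_mul_left _ ?_
    refine (Polynomial.natDegree_iterate_derivative _ _).trans ?_
    omega
  · intro t ht
    refine ⟨(hT t ht).1, fun e he => ?_⟩
    have he0 : (e : Fin (κ + 1) → ℕ) 0 ≠ 0 := by
      refine hB₀' e e.2 fun h => he ?_
      simp [I₀, h]
    rw [Polynomial.eval_prod]
    refine Finset.prod_eq_zero (Finset.mem_univ 0) ?_
    rw [Polynomial.eval_pow]
    simp only [Fin.val_zero, Function.iterate_zero, id_eq]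
    rw [(hT t ht).2, zero_pow he0]


end Pool.Agent.Q299.ST
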